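import Pool.Agent.Y316.Pisot.Strong

/-!
# Strong coincidences for all substitutions with dominated matrices

Letters are `0, ..., m`, `m ≥ 1`. `inc σ` is the incidence matrix of `σ` (entry `(i,j)`: number of
letters `i` in `σ j`), `compList [τ₁, ..., τ_k] = τ₁ ∘ ... ∘ τ_k`, `iter S k a` is `S^k(a)`.
`PisIrr M`: the characteristic polynomial of `M` is irreducible over `ℚ` and has a root `lam > 1`
whose other conjugates `μ` satisfy `0 < |μ| < 1`.

`Dominated q κ M` (in `Pool/Agent/Y316/Pisot/Mat.lean`) is a condition on the matrix only: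
* `M i j = 0` for `1 ≤ i ≤ j`;
* `∑_{i ≥ 1} M i j ≤ q` for `j ≥ 1`, and `∑_{i ≥ 1} M i 0 ≤ κ`;
* `64 (κ+1)² (2q)^m ∑_i M i j ≤ M 0 0` for `j ≥ 1`.

Every composition `S` of substitutions with dominated matrices of nonzero determinant (not
necessarily unimodular), with any order of the letters in the images, is Pisot irreducible and
satisfies the combinatorial strong coincidence condition, with one exponent `k` for all pairs of
letters; `k` depends only on `m`, `q`, `κ` (and `k = 1` works for all long compositions).
-/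

set_option autoImplicit false

namespace Pool.Agent.Results.MP_396664_co.DominatedMatrices

open Pool.Agent.H812R2.PI Pool.Agent.Y316.Pisot

theorem result (m q κ : ℕ) (hm : 1 ≤ m) (hq : 1 ≤ q)
    (l : List (Fin (m+1) → List (Fin (m+1)))) (hne : l ≠ [])
    (hl : ∀ τ ∈ l, (inc τ).det ≠ 0 ∧ Dominated q κ (inc τ)) :
    PisIrr (inc (compList l)) ∧
    ∀ k : ℕ, 13 * ((κ + 1) * (2 * q) ^ m) + m + 2 ≤ k * l.length → ∀ a b : Fin (m+1),
      ∃ (i : Fin (m+1)) (p s p' s' : List (Fin (m+1))),
        iter (compList l) k a = p ++ i :: s ∧ iter (compList l) k b = p' ++ i :: s' ∧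
          ∀ c, p.count c = p'.count c :=
  ⟨pisIrr hm hq l hne hl, fun k hk a b => strong_power hm hq l hl k hk a b⟩

end Pool.Agent.Results.MP_396664_co.DominatedMatrices
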